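import Mathlib

set_option autoImplicit false

namespace Pool.Agent.Results.MP_70096d_gt.Counterexample

open Set Topology

/-- Every (nonempty) directed subset has a supremum. -/
def IsDcpo (P : Type) [PartialOrder P] : Prop :=
  ∀ D : Set P, D.Nonempty → DirectedOn (· ≤ ·) D → ∃ a, IsLUB D a

/-- The Scott topology. -/
def scott (P : Type) [PartialOrder P] : TopologicalSpace P where
  IsOpen U := IsUpperSet U ∧ ∀ D : Set P, D.Nonempty → DirectedOn (· ≤ ·) D →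
    ∀ a, IsLUB D a → a ∈ U → (D ∩ U).Nonempty
  isOpen_univ := ⟨isUpperSet_univ, fun D hD _ _ _ _ => by simpa using hD⟩
  isOpen_inter := by
    rintro U V ⟨hU, hU2⟩ ⟨hV, hV2⟩
    refine ⟨hU.inter hV, fun D hD hd a ha haU => ?_⟩
    obtain ⟨x, hx, hxU⟩ := hU2 D hD hd a ha haU.1
    obtain ⟨y, hy, hyV⟩ := hV2 D hD hd a ha haU.2
    obtain ⟨z, hz, h1, h2⟩ := hd x hx y hy
    exact ⟨z, hz, hU h1 hxU, hV h2 hyV⟩
  isOpen_sUnion := by
    intro S hS
    refine ⟨isUpperSet_sUnion fun U hU => (hS U hU).1, ?_⟩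
    rintro D hD hd a ha ⟨U, hU, haU⟩
    obtain ⟨x, hx, hxU⟩ := (hS U hU).2 D hD hd a ha haU
    exact ⟨x, hx, U, hU, hxU⟩

/-- A saturated set: an intersection of open sets. -/
def Saturated {X : Type} [TopologicalSpace X] (K : Set X) : Prop :=
  ∃ S : Set (Set X), (∀ U ∈ S, IsOpen U) ∧ K = ⋂₀ S

/-- A well-filtered space. -/
def WellFiltered (X : Type) [TopologicalSpace X] : Prop :=
  T0Space X ∧ ∀ F : Set (Set X), F.Nonempty → DirectedOn (· ⊇ ·) F →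
    (∀ K ∈ F, IsCompact K ∧ Saturated K) → ∀ U : Set X, IsOpen U → ⋂₀ F ⊆ U → ∃ K ∈ F, K ⊆ U

/-- A well-filtered poset: some compatible topology is well-filtered. -/
def WFPoset (P : Type) [PartialOrder P] : Prop :=
  ∃ t : TopologicalSpace P, (∀ x : P, @closure P t {x} = Iic x) ∧ @WellFiltered P t

/-- Johnstone's dcpo. -/
structure J where
  c : ℕ
  k : ℕ∞

theorem J.ext' {p q : J} (h1 : p.c = q.c) (h2 : p.k = q.k) : p = q := by
  cases p; cases q; simp_all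

instance : PartialOrder J where
  le p q := (p.c = q.c ∧ p.k ≤ q.k) ∨ (q.k = ⊤ ∧ p.k ≤ q.c)
  le_refl _ := Or.inl ⟨rfl, le_rfl⟩
  le_trans p q r := by
    rintro (⟨h1, h2⟩ | ⟨h1, h2⟩) (⟨h3, h4⟩ | ⟨h3, h4⟩)
    · exact Or.inl ⟨h1.trans h3, h2.trans h4⟩
    · exact Or.inr ⟨h3, h2.trans h4⟩
    · exact Or.inr ⟨top_le_iff.mp (h1 ▸ h4), h3 ▸ h2⟩
    · exact absurd (top_le_iff.mp (h1 ▸ h4)) (ENat.natCast_ne_top _)
  le_antisymm p q := by
    rintro (⟨h1, h2⟩ | ⟨h1, h2⟩) (⟨h3, h4⟩ | ⟨h3, h4⟩)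
    · exact J.ext' h1 (le_antisymm h2 h4)
    · exact J.ext' h1 (le_antisymm h2 (h3 ▸ le_top))
    · exact J.ext' h3.symm (le_antisymm (h1 ▸ le_top) h4)
    · exact absurd (top_le_iff.mp (h1 ▸ h4)) (ENat.natCast_ne_top _)

theorem col_le (y : ℕ) {k l : ℕ∞} (h : k ≤ l) : (⟨y, k⟩ : J) ≤ ⟨y, l⟩ := Or.inl ⟨rfl, h⟩

theorem col_lub (y : ℕ) {T : Set ℕ∞} (hT : T.Nonempty) {l : ℕ∞} (h : IsLUB T l) {q : J}
    (hq : ∀ k ∈ T, (⟨y, k⟩ : J) ≤ q) : (⟨y, l⟩ : J) ≤ q := by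
  by_cases hy : y = q.c
  · refine Or.inl ⟨hy, h.2 fun k hk => ?_⟩
    rcases hq k hk with h1 | h1
    · exact h1.2
    · exact h1.1 ▸ le_top
  · obtain ⟨k0, hk0⟩ := hT
    exact Or.inr ⟨((hq k0 hk0).resolve_left fun h => hy h.1).1,
      h.2 fun k hk => ((hq k hk).resolve_left fun h => hy h.1).2⟩

theorem dcpoJ : IsDcpo J := by
  intro d hne hd
  by_cases h : ∃ p ∈ d, p.k = ⊤
  · obtain ⟨p, hp, h⟩ := h
    refine ⟨p, fun q hq => ?_, fun q hq => hq hp⟩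
    obtain ⟨r, _, h1, h2⟩ := hd p hp q hq
    have : r ≤ p := by
      rcases h1 with h1 | h1
      · exact Or.inl ⟨h1.1.symm, h ▸ le_top⟩
      · exact absurd (top_le_iff.mp (h ▸ h1.2)) (ENat.natCast_ne_top _)
    exact h2.trans this
  · push Not at h
    obtain ⟨p, hp⟩ := hne
    have hx : ∀ q ∈ d, q.c = p.c := by
      intro q hq
      obtain ⟨r, hr, h1, h2⟩ := hd p hp q hq
      exact ((h2.resolve_right fun h' => h r hr h'.1).1).trans
        (h1.resolve_right fun h' => h r hr h'.1).1.symm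
    refine ⟨⟨p.c, sSup (J.k '' d)⟩,
      fun q hq => Or.inl ⟨hx q hq, (isLUB_sSup _).1 ⟨q, hq, rfl⟩⟩, fun q hq =>
      col_lub _ (Set.Nonempty.image _ ⟨p, hp⟩) (isLUB_sSup _) ?_⟩
    rintro _ ⟨r, hr, rfl⟩
    rw [← hx r hr]
    exact hq hr

/-- Johnstone's dcpo with a top element added. -/
abbrev P : Type := WithTop J

theorem lubJ {D : Set P} (hne : D.Nonempty) (hd : DirectedOn (· ≤ ·) D) (ht : ⊤ ∉ D) :
    ∃ a : J, IsLUB D (a : P) := by
  have h1 : ∀ x ∈ D, ∃ j : J, x = (j : P) := by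
    intro x hx
    induction x using WithTop.recTopCoe with
    | top => exact absurd hx ht
    | coe j => exact ⟨j, rfl⟩
  obtain ⟨a, ha⟩ := dcpoJ {j : J | (j : P) ∈ D} (by
    obtain ⟨x, hx⟩ := hne
    obtain ⟨j, rfl⟩ := h1 x hx
    exact ⟨j, hx⟩) (by
    intro p hp q hq
    obtain ⟨z, hz, h2, h3⟩ := hd _ hp _ hq
    obtain ⟨j, rfl⟩ := h1 z hz
    exact ⟨j, hz, WithTop.coe_le_coe.1 h2, WithTop.coe_le_coe.1 h3⟩)
  refine ⟨a, fun x hx => ?_, fun b hb => ?_⟩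
  · obtain ⟨j, rfl⟩ := h1 x hx
    exact WithTop.coe_le_coe.2 (ha.1 hx)
  · induction b using WithTop.recTopCoe with
    | top => exact le_top
    | coe b => exact WithTop.coe_le_coe.2 (ha.2 fun j hj => WithTop.coe_le_coe.1 (hb hj))

theorem dcpoP : IsDcpo P := by
  intro D hne hd
  by_cases ht : ⊤ ∈ D
  · exact ⟨⊤, fun _ _ => le_top, fun b hb => hb ht⟩
  · obtain ⟨a, ha⟩ := lubJ hne hd ht
    exact ⟨a, ha⟩

/-- the point `(c, k)` of `P`. -/
def pt (c : ℕ) (k : ℕ∞) : P := ((⟨c, k⟩ : J) : P)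

theorem pt_le {c : ℕ} {k l : ℕ∞} (h : k ≤ l) : pt c k ≤ pt c l :=
  WithTop.coe_le_coe.2 (col_le c h)

theorem pt_le_top {c m : ℕ} {k : ℕ} (h : k ≤ m) : pt c k ≤ pt m ⊤ :=
  WithTop.coe_le_coe.2 (Or.inr ⟨rfl, show (k : ℕ∞) ≤ (m : ℕ∞) by exact_mod_cast h⟩)

theorem casesP (x : P) : x = ⊤ ∨ ∃ c k, x = pt c k := by
  induction x using WithTop.recTopCoe with
  | top => exact Or.inl rfl
  | coe j => exact Or.inr ⟨j.c, j.k, rfl⟩

theorem fin_of {U : Set P} (h2 : ∀ c, pt c ⊤ ∈ U → ∃ k : ℕ, pt c k ∈ U) {c : ℕ} {k : ℕ∞}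
    (h : pt c k ∈ U) : ∃ k : ℕ, pt c k ∈ U := by
  induction k using ENat.recTopCoe with
  | top => exact h2 c h
  | coe k => exact ⟨k, h⟩

/-- The compatible well-filtered topology (the sobrification of Johnstone's space). -/
def tau : TopologicalSpace P where
  IsOpen U := IsUpperSet U ∧ (∀ c, pt c ⊤ ∈ U → ∃ k : ℕ, pt c k ∈ U) ∧
    (⊤ ∈ U → ∃ c k, pt c k ∈ U)
  isOpen_univ := ⟨isUpperSet_univ, fun _ _ => ⟨0, mem_univ _⟩, fun _ => ⟨0, 0, mem_univ _⟩⟩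
  isOpen_inter := by
    rintro U V ⟨hU, hU2, hU3⟩ ⟨hV, hV2, hV3⟩
    refine ⟨hU.inter hV, fun c hc => ?_, fun h => ?_⟩
    · obtain ⟨k, hk⟩ := hU2 c hc.1
      obtain ⟨l, hl⟩ := hV2 c hc.2
      exact ⟨max k l, hU (pt_le (by exact_mod_cast le_max_left k l)) hk,
        hV (pt_le (by exact_mod_cast le_max_right k l)) hl⟩
    · obtain ⟨c, k, hk⟩ := hU3 h.1
      obtain ⟨d, l, hl⟩ := hV3 h.2
      obtain ⟨k, hk⟩ := fin_of hU2 hk
      obtain ⟨l, hl⟩ := fin_of hV2 hl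
      exact ⟨max k l, ⊤, hU (pt_le_top (le_max_left k l)) hk, hV (pt_le_top (le_max_right k l)) hl⟩
  isOpen_sUnion := by
    intro S hS
    refine ⟨isUpperSet_sUnion fun U hU => (hS U hU).1, ?_, ?_⟩
    · rintro c ⟨U, hU, hc⟩
      obtain ⟨k, hk⟩ := (hS U hU).2.1 c hc
      exact ⟨k, U, hU, hk⟩
    · rintro ⟨U, hU, hc⟩
      obtain ⟨c, k, hk⟩ := (hS U hU).2.2 hc
      exact ⟨c, k, U, hU, hk⟩

theorem lub_col (c : ℕ) : IsLUB (range fun k : ℕ => pt c k) (pt c ⊤) := by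
  refine ⟨?_, fun b hb => ?_⟩
  · rintro _ ⟨k, rfl⟩
    exact pt_le le_top
  · rcases casesP b with rfl | ⟨d, l, rfl⟩
    · exact le_top
    · refine WithTop.coe_le_coe.2 (col_lub c (T := range fun k : ℕ => (k : ℕ∞))
        (range_nonempty _) ⟨fun _ _ => le_top, fun b hb => ?_⟩ ?_)
      · rw [top_le_iff, ENat.eq_top_iff_forall_ge]
        exact fun m => hb ⟨m, rfl⟩
      · rintro _ ⟨k, rfl⟩
        exact WithTop.coe_le_coe.1 (hb ⟨k, rfl⟩)

theorem open_compl_Iic (x : P) : IsOpen[tau] (Iic x)ᶜ := by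
  refine ⟨(isLowerSet_Iic x).compl, fun c hc => ?_, fun h => ?_⟩
  · by_contra h
    push Not at h
    apply hc
    refine (lub_col c).2 ?_
    rintro _ ⟨k, rfl⟩
    simpa using h k
  · rcases casesP x with rfl | ⟨d, l, rfl⟩
    · exact absurd (mem_Iic.2 le_rfl) h
    · refine ⟨d + 1, ⊤, fun h' => ?_⟩
      rcases WithTop.coe_le_coe.1 (mem_Iic.1 h') with h1 | h1
      · exact absurd h1.1 (Nat.succ_ne_self d)
      · exact absurd (top_le_iff.1 h1.2) (ENat.natCast_ne_top _)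

theorem closure_tau (x : P) : @closure P tau {x} = Iic x := by
  letI := tau
  apply Subset.antisymm
  · exact closure_minimal (by simp) ⟨open_compl_Iic x⟩
  · intro y hy
    rw [mem_closure_iff]
    exact fun U hU hyU => ⟨x, hU.1 hy hyU, rfl⟩

theorem wf_tau : @WellFiltered P tau := by
  letI := tau
  refine ⟨?_, ?_⟩
  · rw [t0Space_iff_inseparable]
    intro x y h
    rw [inseparable_iff_closure_eq, closure_tau, closure_tau] at h
    exact Iic_injective h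
  intro F hne hdir hK U hU hFU
  by_contra hcon
  push Not at hcon
  have hup : ∀ K ∈ F, IsUpperSet K := by
    intro K hKF
    obtain ⟨S, hS, rfl⟩ := (hK K hKF).2
    exact isUpperSet_sInter fun V hV => (hS V hV).1
  have htop : ⊤ ∈ U := by
    apply hFU
    intro K hKF
    obtain ⟨x, hx, -⟩ := not_subset.1 (hcon K hKF)
    exact hup K hKF le_top hx
  obtain ⟨c0, k0, h0⟩ := hU.2.2 htop
  obtain ⟨k0, h0⟩ := fin_of hU.2.1 h0
  have hbig : ∀ m, k0 ≤ m → pt m ⊤ ∈ U := fun m hm => hU.1 (pt_le_top hm) h0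
  -- the open sets `V n`
  let V : ℕ → Set P := fun n => U ∪ {x | ∃ c k, c < k0 + n ∧ x = pt c k}
  have hVo : ∀ n, IsOpen (V n) := by
    intro n
    refine ⟨?_, ?_, fun _ => ⟨c0, k0, Or.inl h0⟩⟩
    · rintro a b hab (ha | ⟨c, k, hc, rfl⟩)
      · exact Or.inl (hU.1 hab ha)
      · rcases casesP b with rfl | ⟨d, l, rfl⟩
        · exact Or.inl htop
        · by_cases hd : d < k0 + n
          · exact Or.inr ⟨d, l, hd, rfl⟩
          · rcases WithTop.coe_le_coe.1 hab with h1 | h1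
            · exact absurd (show d < k0 + n from (show c = d from h1.1) ▸ hc) hd
            · have : l = ⊤ := h1.1
              subst this
              exact Or.inl (hbig d (by omega))
    · rintro c (hc | ⟨d, l, hd, he⟩)
      · obtain ⟨k, hk⟩ := hU.2.1 c hc
        exact ⟨k, Or.inl hk⟩
      · have : c = d := congrArg J.c (WithTop.coe_injective he)
        exact ⟨0, Or.inr ⟨c, 0, this ▸ hd, rfl⟩⟩
  obtain ⟨K0, hK0⟩ := hne
  obtain ⟨n, hn⟩ := (hK K0 hK0).1.elim_directed_cover V hVo (by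
    intro x _
    rcases casesP x with rfl | ⟨d, l, rfl⟩
    · exact mem_iUnion.2 ⟨0, Or.inl htop⟩
    · exact mem_iUnion.2 ⟨d + 1, Or.inr ⟨d, l, by omega, rfl⟩⟩) (by
    apply directed_of_isDirected_le
    rintro a b hab x (hx | ⟨c, k, hc, rfl⟩)
    · exact Or.inl hx
    · exact Or.inr ⟨c, k, by omega, rfl⟩)
  -- each column is eventually cleared
  have hcol : ∀ c, ∃ K ∈ F, ∀ k, pt c k ∈ K → pt c k ∈ U := by
    intro c
    by_cases he : ∃ k, pt c k ∉ U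
    · let T : Set ℕ∞ := {k | pt c k ∉ U}
      have hmax : pt c (sSup T) ∉ U := by
        intro hm
        obtain ⟨k, hk⟩ := fin_of hU.2.1 hm
        have hb : ∀ t ∈ T, t < k := by
          intro t ht
          by_contra hlt
          exact ht (hU.1 (pt_le (not_lt.1 hlt)) hk)
        have hfin : T.Finite := by
          refine ((finite_lt_nat k).image (fun n : ℕ => (n : ℕ∞))).subset fun t ht => ?_
          obtain ⟨m, rfl⟩ := ENat.ne_top_iff_exists.1 (ne_top_of_lt (hb t ht))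
          exact ⟨m, by exact_mod_cast hb _ ht, rfl⟩
        exact (Set.Nonempty.csSup_mem (s := T) he hfin) hm
      have : pt c (sSup T) ∉ ⋂₀ F := fun h => hmax (hFU h)
      rw [mem_sInter] at this
      push Not at this
      obtain ⟨K, hKF, hKm⟩ := this
      refine ⟨K, hKF, fun k hk => ?_⟩
      by_contra hkU
      exact hKm (hup K hKF (pt_le (le_sSup hkU)) hk)
    · push Not at he
      exact ⟨K0, hK0, fun k _ => he k⟩
  have hall : ∀ N, ∃ K ∈ F, K ⊆ K0 ∧ ∀ c < N, ∀ k, pt c k ∈ K → pt c k ∈ U := by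
    intro N
    induction N with
    | zero => exact ⟨K0, hK0, Subset.rfl, fun c hc => absurd hc (Nat.not_lt_zero c)⟩
    | succ N ih =>
      obtain ⟨K, hKF, h1, h2⟩ := ih
      obtain ⟨L, hLF, h3⟩ := hcol N
      obtain ⟨M, hMF, h4, h5⟩ := hdir K hKF L hLF
      refine ⟨M, hMF, Subset.trans h4 h1, fun c hc k hk => ?_⟩
      rcases Nat.lt_succ_iff_lt_or_eq.1 hc with h | rfl
      · exact h2 c h k (h4 hk)
      · exact h3 k (h5 hk)
  obtain ⟨K, hKF, h1, h2⟩ := hall (k0 + n)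
  apply hcon K hKF
  intro x hx
  rcases hn (h1 hx) with h | ⟨c, k, hc, rfl⟩
  · exact h
  · exact h2 c hc k hx

theorem not_wf (Q : Type) [PartialOrder Q] [Nonempty Q] :
    ¬ @WellFiltered (P × Q) (scott (P × Q)) := by
  letI := scott (P × Q)
  rintro ⟨-, H⟩
  obtain ⟨q⟩ := ‹Nonempty Q›
  let K : ℕ → Set (P × Q) := fun n => {x | (∃ m, n ≤ m ∧ pt m ⊤ ≤ x.1) ∧ q ≤ x.2}
  have hanti : ∀ a b, a ≤ b → K b ⊆ K a := by
    rintro a b hab x ⟨⟨m, hm, h1⟩, h2⟩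
    exact ⟨⟨m, hab.trans hm, h1⟩, h2⟩
  have hup : ∀ n, IsUpperSet (K n) := by
    rintro n x y hxy ⟨⟨m, hm, h1⟩, h2⟩
    exact ⟨⟨m, hm, h1.trans hxy.1⟩, h2.trans hxy.2⟩
  have hsat : ∀ n, Saturated (K n) := by
    intro n
    refine ⟨(fun x => (Iic x)ᶜ) '' (K n)ᶜ, ?_, ?_⟩
    · rintro _ ⟨x, -, rfl⟩
      refine ⟨(isLowerSet_Iic x).compl, fun D _ _ a ha haU => ?_⟩
      by_contra h
      rw [not_nonempty_iff_eq_empty, ← disjoint_iff_inter_eq_empty, disjoint_compl_right_iff_subset] at h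
      exact haU (ha.2 h)
    · ext y
      simp only [sInter_image, mem_iInter, mem_compl_iff, mem_Iic]
      exact ⟨fun hy x hx hyx => hx (hup n hyx hy), fun h => by_contra fun hy => h y hy le_rfl⟩
  have hcof : ∀ W : Set (P × Q), IsOpen W → ∀ c, (pt c ⊤, q) ∈ W →
      ∃ k : ℕ, ∀ m, k ≤ m → (pt m ⊤, q) ∈ W := by
    intro W hW c hc
    obtain ⟨_, ⟨k, rfl⟩, hk⟩ := hW.2 (range fun k : ℕ => (pt c k, q)) (range_nonempty _) (by
      rintro _ ⟨k, rfl⟩ _ ⟨l, rfl⟩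
      exact ⟨_, ⟨max k l, rfl⟩, ⟨pt_le (by exact_mod_cast le_max_left k l), le_rfl⟩,
        ⟨pt_le (by exact_mod_cast le_max_right k l), le_rfl⟩⟩) (pt c ⊤, q) (by
      refine ⟨?_, fun b hb => ⟨(lub_col c).2 ?_, (hb ⟨0, rfl⟩).2⟩⟩
      · rintro _ ⟨k, rfl⟩
        exact ⟨pt_le le_top, le_rfl⟩
      · rintro _ ⟨k, rfl⟩
        exact (hb ⟨k, rfl⟩).1) hc
    exact ⟨k, fun m hm => hW.1 (show (pt c k, q) ≤ (pt m ⊤, q) from ⟨pt_le_top hm, le_rfl⟩) hk⟩
  have hcomp : ∀ n, IsCompact (K n) := by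
    intro n
    apply isCompact_of_finite_subcover
    intro ι W hW hcov
    have hc : ∀ m : ℕ, ∃ i, (pt (n + m) ⊤, q) ∈ W i := fun m =>
      mem_iUnion.1 (hcov (show (pt (n + m) ⊤, q) ∈ K n from
        ⟨⟨n + m, by omega, le_rfl⟩, le_rfl⟩))
    choose i hi using hc
    obtain ⟨k, hk⟩ := hcof _ (hW (i 0)) _ (hi 0)
    classical
    refine ⟨(Finset.range (k + 1)).image i, ?_⟩
    rintro x ⟨⟨m, hm, h1⟩, h2⟩
    have hle : (pt m ⊤, q) ≤ x := ⟨h1, h2⟩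
    simp only [mem_iUnion]
    by_cases hmk : k ≤ m
    · exact ⟨i 0, Finset.mem_image.2 ⟨0, by simp, rfl⟩, (hW _).1 hle (hk m hmk)⟩
    · refine ⟨i (m - n), Finset.mem_image.2 ⟨m - n, by simp; omega, rfl⟩, (hW _).1 hle ?_⟩
      have := hi (m - n)
      rwa [Nat.add_sub_cancel' hm] at this
  have hU : IsOpen {x : P × Q | x.1 = ⊤} := by
    refine ⟨fun x y hxy hx => top_le_iff.1 (hx ▸ hxy.1), fun D hD hd a ha hat => ?_⟩
    by_contra h
    have ht : ⊤ ∉ Prod.fst '' D := by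
      rintro ⟨x, hx, hxt⟩
      exact h ⟨x, hx, hxt⟩
    obtain ⟨j, hj⟩ := lubJ (hD.image _) (by
      rintro _ ⟨x, hx, rfl⟩ _ ⟨y, hy, rfl⟩
      obtain ⟨z, hz, h1, h2⟩ := hd x hx y hy
      exact ⟨_, ⟨z, hz, rfl⟩, h1.1, h2.1⟩) ht
    have := (ha.2 (show ((j : P), a.2) ∈ upperBounds D from
      fun x hx => ⟨hj.1 ⟨x, hx, rfl⟩, (ha.1 hx).2⟩)).1
    rw [show a.1 = ⊤ from hat] at this
    exact WithTop.coe_ne_top (top_le_iff.1 this)
  obtain ⟨_, ⟨n, rfl⟩, hn⟩ := H (range K) (range_nonempty _) (by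
    rintro _ ⟨a, rfl⟩ _ ⟨b, rfl⟩
    exact ⟨_, ⟨max a b, rfl⟩, hanti _ _ (le_max_left a b), hanti _ _ (le_max_right a b)⟩) (by
    rintro _ ⟨n, rfl⟩
    exact ⟨hcomp n, hsat n⟩) _ hU (by
    intro x hx
    rcases casesP x.1 with h | ⟨d, l, h⟩
    · exact h
    · exfalso
      obtain ⟨⟨m, hm, h1⟩, -⟩ := hx _ ⟨d + 1, rfl⟩
      rw [h] at h1
      rcases WithTop.coe_le_coe.1 h1 with h2 | h2
      · have : m = d := h2.1
        omega
      · exact absurd (top_le_iff.1 h2.2) (ENat.natCast_ne_top _))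
  have := hn (show (pt n ⊤, q) ∈ K n from ⟨⟨n, le_rfl, le_rfl⟩, le_rfl⟩)
  exact WithTop.coe_ne_top this

theorem result : ∃ (P : Type) (_ : PartialOrder P), Nonempty P ∧ IsDcpo P ∧ WFPoset P ∧
    ∀ (Q : Type) [PartialOrder Q] [Nonempty Q], ¬ @WellFiltered (P × Q) (scott (P × Q)) :=
  ⟨P, inferInstance, ⟨⊤⟩, dcpoP, ⟨tau, closure_tau, wf_tau⟩, not_wf⟩

end Pool.Agent.Results.MP_70096d_gt.Counterexample
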